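import Mathlib
import Pool.Agent.Helper80.PS.SumUp
import Pool.Agent.Helper19.P3.Defs

/-!
# Project PS4: summation over the dyadic blocks, no critical class

`ps4_main_of`: the theorem for sets of Lehmer numbers, with the block theorem as a hypothesis
(the proof of `Helper80.PS.ps_small_of` without the critical class).
-/

namespace Pool.Agent.Helper19.P3

open Finset Pool.Agent.Helper6.Lehmer Pool.Agent.Helper6.LehmerCount Pool.Agent.Helper6.PW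
open Pool.Agent.Helper58.PS

/-- the block theorem `blk4`, as a hypothesis -/
def Blk4 : Prop :=
  ∀ U : ℝ, 1 ≤ U → ∃ δ : ℝ, 0 < δ ∧ ∃ l₀ : ℕ, ∀ l b : ℕ,
    l₀ ≤ l → (l : ℝ) ≤ U * b → ∀ S : Finset ℕ,
    (∀ n ∈ S, IsLehmer n ∧ 2 ^ (l - 1) < n ∧ n ≤ 2 ^ l ∧
      ∃ p, IsP n p ∧ 2 ^ b < p ∧ p ≤ 2 ^ (b + 1)) →
    (#S : ℝ) ≤ (2 : ℝ) ^ ((1 / 2 - δ) * (l : ℝ))

theorem ps4_small_of (hblk : Blk4) (ε : ℝ) (hε : 0 < ε) (hε4 : ε ≤ 1 / 4) :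
    ∃ δ : ℝ, 0 < δ ∧ ∃ x₀ : ℕ, 1 ≤ x₀ ∧ ∀ x : ℕ, x₀ ≤ x →
    ∀ S : Finset ℕ, (∀ n ∈ S, IsLehmer n ∧ n ≤ x ∧ ∃ P, IsP n P ∧ (x : ℝ) ^ ε ≤ P) →
    (#S : ℝ) ≤ (x : ℝ) ^ ((1 : ℝ) / 2 - δ) := by
  have hU : (1 : ℝ) ≤ 4 / ε := by
    rw [le_div_iff₀ hε]
    linarith
  obtain ⟨δ₁, hδ₁, l₀, hblk⟩ := hblk (4 / ε) hU
  obtain ⟨X₀, hNL⟩ := Pool.Agent.Helper58.LT.NL_bound_exp
  obtain ⟨δ₃, hδ₃⟩ : ∃ δ₃, δ₃ = min (ε ^ 2 / 128) (min δ₁ (1 / 4)) := ⟨_, rfl⟩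
  have hδ₃pos : 0 < δ₃ := by
    rw [hδ₃]
    exact lt_min (by positivity) (lt_min hδ₁ (by norm_num))
  have hδ₃a : δ₃ ≤ ε ^ 2 / 128 := by rw [hδ₃]; exact min_le_left _ _
  have hδ₃b : δ₃ ≤ δ₁ := by rw [hδ₃]; exact (min_le_right _ _).trans (min_le_left _ _)
  have hδ₃c : δ₃ ≤ 1 / 4 := by rw [hδ₃]; exact (min_le_right _ _).trans (min_le_right _ _)
  obtain ⟨M₁, hM₁⟩ := polySUM (δ := δ₃ / 2) (by positivity)
  obtain ⟨M₂, hM₂⟩ : ∃ M₂ : ℕ, (4 * (1 + 4 / ε) / ε + 1) / ε + 1 ≤ M₂ := exists_nat_ge _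
  obtain ⟨M₀, hM₀⟩ : ∃ M₀, M₀ = M₁ + M₂ + (2 * (l₀ + X₀ + 1)) + 2 := ⟨_, rfl⟩
  refine ⟨δ₃ / 2, by positivity, 2 ^ M₀, Nat.one_le_two_pow, ?_⟩
  intro x hx S hS
  obtain ⟨M, hM⟩ : ∃ M, M = Nat.clog 2 x := ⟨_, rfl⟩
  have hx2 : x ≤ 2 ^ M := by rw [hM]; exact Nat.le_pow_clog (by norm_num) x
  have hMM : M₀ ≤ M := (Nat.pow_le_pow_iff_right (by norm_num)).mp (hx.trans hx2)
  have hx1' : 1 < x := lt_of_lt_of_le (Nat.one_lt_two_pow (by omega)) hx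
  have hx1 : 2 ^ (M - 1) < x := by
    rw [hM]
    exact Nat.pow_pred_clog_lt_self (by norm_num) hx1'
  have hM1 : 1 ≤ M := by omega
  have hMR : (M₀ : ℝ) ≤ M := by exact_mod_cast hMM
  have hM₀R : (M₀ : ℝ) = M₁ + M₂ + (2 * (l₀ + X₀ + 1)) + 2 := by
    rw [hM₀]
    push_cast
    ring
  have hM₁0 : (0 : ℝ) ≤ M₁ := Nat.cast_nonneg _
  have hM₂0 : (0 : ℝ) ≤ M₂ := Nat.cast_nonneg _
  have hl₀0 : (0 : ℝ) ≤ l₀ := Nat.cast_nonneg _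
  have hX₀0 : (0 : ℝ) ≤ X₀ := Nat.cast_nonneg _
  have hMpos : (0 : ℝ) < M := by exact_mod_cast hM1
  have hMbig : 4 * (1 + 4 / ε) / ε ≤ ε * (M - 1) - 1 := by
    have h1 : (4 * (1 + 4 / ε) / ε + 1) / ε ≤ (M : ℝ) - 1 := by linarith
    rw [div_le_iff₀ hε] at h1
    linarith
  obtain ⟨a, ha⟩ : ∃ a, a = ⌊(1 - ε ^ 2 / 64) * (M : ℝ)⌋₊ := ⟨_, rfl⟩
  have hε2 : ε ^ 2 / 64 ≤ 1 / 2 := by nlinarith
  have hε20 : 0 ≤ ε ^ 2 / 64 := by positivity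
  have ha0 : 0 ≤ (1 - ε ^ 2 / 64) * (M : ℝ) := mul_nonneg (by linarith) hMpos.le
  have ha1 : (a : ℝ) ≤ (1 - ε ^ 2 / 64) * M := by rw [ha]; exact Nat.floor_le ha0
  have ha2 : (1 - ε ^ 2 / 64) * M < a + 1 := by rw [ha]; exact Nat.lt_floor_add_one _
  have ha3 : (l₀ : ℝ) + X₀ ≤ a := by
    have h1 : (1 : ℝ) / 2 * M ≤ (1 - ε ^ 2 / 64) * M :=
      mul_le_mul_of_nonneg_right (by linarith) hMpos.le
    linarith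
  have ha4 : l₀ + X₀ ≤ a := by exact_mod_cast ha3
  obtain ⟨B, hB, hcard⟩ := decompSUM S x M a hx2 (fun n hn =>
    ⟨(hS n hn).1, (hS n hn).2.1, (hS n hn).2.2.imp (fun P h => h.1)⟩)
  have hcard' : (#S : ℝ) ≤ (NL (2 ^ a) : ℝ) + ∑ l ∈ Ioc a M, ∑ b ∈ range M, (#(B l b) : ℝ) := by
    exact_mod_cast hcard
  -- each block
  have hblock : ∀ l ∈ Ioc a M, ∀ b ∈ range M,
      (#(B l b) : ℝ) ≤ (2 : ℝ) ^ ((1 / 2 - δ₃) * (M : ℝ)) := by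
    intro l hl b _
    rw [mem_Ioc] at hl
    rcases (B l b).eq_empty_or_nonempty with he | hne
    · rw [he, card_empty, Nat.cast_zero]
      positivity
    · have hl1 : (1 - ε ^ 2 / 64) * (M : ℝ) ≤ l := by
        have : (a : ℝ) + 1 ≤ l := by exact_mod_cast hl.1
        linarith
      have key : ∀ n ∈ B l b, (l : ℝ) ≤ 4 / ε * b ∧
          (IsLehmer n ∧ 2 ^ (l - 1) < n ∧ n ≤ 2 ^ l ∧
          ∃ p, IsP n p ∧ 2 ^ b < p ∧ p ≤ 2 ^ (b + 1)) := by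
        intro n hn
        obtain ⟨hnS, hn1, hn2, p, hp, hp1, hp2⟩ := hB l b n hn
        obtain ⟨hL, hnx, P, hP, hxP⟩ := hS n hnS
        have hPp := isP_uniqueSUM hP hp
        subst hPp
        have k1 := (Pool.Agent.Helper80.PS.critTransfer (n := n) hε hε4 hx1 hx2 hM1 hl1 hl.2
          hp1 hp2 hxP hMbig).1
        exact ⟨k1, hL, hn1, hn2, P, hP, hp1, hp2⟩
      obtain ⟨n, hn⟩ := hne
      have h1 := hblk l b (by omega) (key n hn).1 (B l b) (fun n hn => (key n hn).2)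
      refine h1.trans (Real.rpow_le_rpow_of_exponent_le (by norm_num) ?_)
      have hlM : (l : ℝ) ≤ M := by exact_mod_cast hl.2
      calc (1 / 2 - δ₁) * (l : ℝ) ≤ (1 / 2 - δ₃) * l :=
            mul_le_mul_of_nonneg_right (by linarith) (Nat.cast_nonneg _)
        _ ≤ (1 / 2 - δ₃) * M := mul_le_mul_of_nonneg_left hlM (by linarith)
  have hsum : ∑ l ∈ Ioc a M, ∑ b ∈ range M, (#(B l b) : ℝ) ≤
      (M : ℝ) ^ 2 * (2 : ℝ) ^ ((1 / 2 - δ₃) * (M : ℝ)) := by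
    have h1 : ∑ l ∈ Ioc a M, ∑ b ∈ range M, (#(B l b) : ℝ) ≤
        ∑ _l ∈ Ioc a M, ∑ _b ∈ range M, (2 : ℝ) ^ ((1 / 2 - δ₃) * (M : ℝ)) :=
      Finset.sum_le_sum (fun l hl => Finset.sum_le_sum (fun b hb => hblock l hl b hb))
    refine h1.trans ?_
    rw [Finset.sum_const, Finset.sum_const, Nat.card_Ioc, card_range, nsmul_eq_mul, nsmul_eq_mul]
    have h2 : ((M - a : ℕ) : ℝ) ≤ M := by exact_mod_cast Nat.sub_le _ _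
    have h3 : 0 ≤ (2 : ℝ) ^ ((1 / 2 - δ₃) * (M : ℝ)) := by positivity
    calc ((M - a : ℕ) : ℝ) * ((M : ℝ) * (2 : ℝ) ^ ((1 / 2 - δ₃) * (M : ℝ))) ≤
          (M : ℝ) * ((M : ℝ) * (2 : ℝ) ^ ((1 / 2 - δ₃) * (M : ℝ))) :=
          mul_le_mul_of_nonneg_right h2 (by positivity)
      _ = _ := by ring
  have hsmall : (NL (2 ^ a) : ℝ) ≤ (2 : ℝ) ^ ((1 / 2 - δ₃) * (M : ℝ)) := by
    have h1 := hNL (2 ^ a) ((by omega : X₀ ≤ a).trans Nat.lt_two_pow_self.le)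
    have h2 : Real.exp (-(Real.log ((2 ^ a : ℕ) : ℝ) ^ ((1 : ℝ) / 61))) ≤ 1 := by
      rw [Real.exp_le_one_iff]
      have : 0 ≤ Real.log ((2 ^ a : ℕ) : ℝ) ^ ((1 : ℝ) / 61) :=
        Real.rpow_nonneg (Real.log_natCast_nonneg _) _
      linarith
    have h3 : Real.sqrt ((2 ^ a : ℕ) : ℝ) = (2 : ℝ) ^ ((a : ℝ) / 2) := by
      rw [Real.sqrt_eq_rpow]
      push_cast
      rw [← Real.rpow_natCast, ← Real.rpow_mul (by norm_num)]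
      congr 1
      ring
    calc (NL (2 ^ a) : ℝ) ≤ Real.sqrt ((2 ^ a : ℕ) : ℝ) * 1 :=
          h1.trans (mul_le_mul_of_nonneg_left h2 (Real.sqrt_nonneg _))
      _ = (2 : ℝ) ^ ((a : ℝ) / 2) := by rw [mul_one, h3]
      _ ≤ (2 : ℝ) ^ ((1 / 2 - δ₃) * (M : ℝ)) := by
          refine Real.rpow_le_rpow_of_exponent_le (by norm_num) ?_
          have h4 : δ₃ * (M : ℝ) ≤ ε ^ 2 / 128 * M := mul_le_mul_of_nonneg_right hδ₃a hMpos.le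
          linarith
  have htot : (#S : ℝ) ≤ (1 + (M : ℝ) ^ 2) * (2 : ℝ) ^ ((1 / 2 - δ₃) * (M : ℝ)) := by
    linarith
  have hpoly := hM₁ M (by omega)
  have hxR : (2 : ℝ) ^ ((M : ℝ) - 1) ≤ x := by
    have h1 : ((2 : ℝ) ^ (M - 1 : ℕ)) ≤ x := by exact_mod_cast hx1.le
    rw [← Real.rpow_natCast, Nat.cast_sub hM1, Nat.cast_one] at h1
    exact h1
  have hx0R : (0 : ℝ) < x := by exact_mod_cast (by omega : 0 < x)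
  have h5 : (2 : ℝ) ^ ((1 / 2 - δ₃) * (M : ℝ)) ≤ 2 * (2 : ℝ) ^ ((1 / 2 - δ₃) * ((M : ℝ) - 1)) := by
    calc (2 : ℝ) ^ ((1 / 2 - δ₃) * (M : ℝ)) ≤ (2 : ℝ) ^ (1 + (1 / 2 - δ₃) * ((M : ℝ) - 1)) := by
          refine Real.rpow_le_rpow_of_exponent_le (by norm_num) ?_
          linarith
      _ = 2 * (2 : ℝ) ^ ((1 / 2 - δ₃) * ((M : ℝ) - 1)) := by
          rw [Real.rpow_add (by norm_num), Real.rpow_one]
  calc (#S : ℝ) ≤ (1 + (M : ℝ) ^ 2) * (2 : ℝ) ^ ((1 / 2 - δ₃) * (M : ℝ)) := htot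
    _ ≤ (1 + (M : ℝ) ^ 2) * (2 * (2 : ℝ) ^ ((1 / 2 - δ₃) * ((M : ℝ) - 1))) :=
        mul_le_mul_of_nonneg_left h5 (by positivity)
    _ = (2 * (1 + (M : ℝ) ^ 2)) * (2 : ℝ) ^ ((1 / 2 - δ₃) * ((M : ℝ) - 1)) := by ring
    _ ≤ (2 : ℝ) ^ (δ₃ / 2 * ((M : ℝ) - 1)) * (2 : ℝ) ^ ((1 / 2 - δ₃) * ((M : ℝ) - 1)) :=
        mul_le_mul_of_nonneg_right hpoly (by positivity)
    _ = ((2 : ℝ) ^ ((M : ℝ) - 1)) ^ ((1 : ℝ) / 2 - δ₃ / 2) := by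
        rw [← Real.rpow_add (by norm_num), ← Real.rpow_mul (by norm_num)]
        congr 1
        ring
    _ ≤ (x : ℝ) ^ ((1 : ℝ) / 2 - δ₃ / 2) :=
        Real.rpow_le_rpow (by positivity) hxR (by linarith)

/-- `ps4_main` with the block theorem as a hypothesis -/
theorem ps4_main_of (hblk : Blk4) (ε : ℝ) (hε : 0 < ε) : ∃ δ : ℝ, 0 < δ ∧ ∃ x₀ : ℕ, ∀ x : ℕ,
    x₀ ≤ x → ∀ S : Finset ℕ, (∀ n ∈ S, IsLehmer n ∧ n ≤ x ∧ ∃ P, IsP n P ∧ (x : ℝ) ^ ε ≤ P) →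
    (#S : ℝ) ≤ (x : ℝ) ^ ((1 : ℝ) / 2 - δ) := by
  rcases le_or_gt ε (1 / 4) with h4 | h4
  · obtain ⟨δ, hδ, x₀, -, h⟩ := ps4_small_of hblk ε hε h4
    exact ⟨δ, hδ, x₀, fun x hx S hS => h x hx S hS⟩
  · obtain ⟨δ, hδ, x₀, hx₀, h⟩ := ps4_small_of hblk (1 / 4) (by norm_num) le_rfl
    refine ⟨δ, hδ, x₀, fun x hx S hS => h x hx S (fun n hn => ?_)⟩
    obtain ⟨hL, hnx, P, hP, hxP⟩ := hS n hn
    have hx1 : 1 ≤ x := hx₀.trans hx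
    exact ⟨hL, hnx, P, hP,
      (Real.rpow_le_rpow_of_exponent_le (by exact_mod_cast hx1) h4.le).trans hxP⟩

end Pool.Agent.Helper19.P3
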