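import Mathlib
import Pool.Agent.Helper19.P3.Defs
import Pool.Agent.Helper6.PW.Omega

/-!
# Project PS4, leaf `ok_of`: the side conditions on the tolerance hold for all large blocks
-/

namespace Pool.Agent.Helper19.P3

open Finset Pool.Agent.Helper6.Lehmer Pool.Agent.Helper6.LehmerCount Pool.Agent.Helper58.LT

private theorem h14_sq_le (κ : ℕ) : (κ + 1) ^ 2 ≤ 4 * 2 ^ κ := by
  have h1 : κ / 2 < 2 ^ (κ / 2) := Nat.lt_two_pow_self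
  have h2 : κ + 1 ≤ 2 * 2 ^ (κ / 2) := by omega
  calc (κ + 1) ^ 2 ≤ (2 * 2 ^ (κ / 2)) ^ 2 := Nat.pow_le_pow_left h2 2
    _ = 4 * 2 ^ (κ / 2 * 2) := by rw [mul_pow, ← pow_mul]; norm_num
    _ ≤ 4 * 2 ^ κ := Nat.mul_le_mul_left _ (Nat.pow_le_pow_right (by norm_num) (by omega))

theorem ok_of (i : ℕ) (τ : ℝ) (hτ : 0 < τ) : ∃ l₀ : ℕ, ∀ l κ β : ℕ, l₀ ≤ l → τ * l ≤ κ →
    (2 * i + 1) * (β : ℝ) ≤ 2 * l → Ok i β κ := by
  obtain ⟨l₁, h₁⟩ := Pool.Agent.Helper6.PW.omega_small (τ / 32) (by positivity)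
  obtain ⟨l₂, h₂⟩ := exists_nat_ge (132 / τ ^ 2)
  obtain ⟨l₃, h₃⟩ := exists_nat_ge (1 / τ)
  refine ⟨l₁ + l₂ + l₃ + 1, fun l κ β hl hκ hβ => ?_⟩
  have hl1 : l₁ ≤ 32 * l := by omega
  have hl2 : 132 / τ ^ 2 ≤ (l : ℝ) := h₂.trans (by exact_mod_cast (by omega : l₂ ≤ l))
  have hl3 : 1 / τ ≤ (l : ℝ) := h₃.trans (by exact_mod_cast (by omega : l₃ ≤ l))
  have hlpos : (1 : ℝ) ≤ (l : ℝ) := by exact_mod_cast (by omega : 1 ≤ l)
  have hτ2 : (132 : ℝ) ≤ l * τ ^ 2 := by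
    have := (div_le_iff₀ (by positivity : (0 : ℝ) < τ ^ 2)).1 hl2
    exact this
  have hτ1 : (1 : ℝ) ≤ l * τ := (div_le_iff₀ hτ).1 hl3
  have hβ' : (8 * i + 16) * β ≤ 32 * l := by
    have h4 : ((2 * i + 1) * β : ℕ) ≤ 2 * l := by
      have : (((2 * i + 1) * β : ℕ) : ℝ) ≤ ((2 * l : ℕ) : ℝ) := by push_cast; exact hβ
      exact_mod_cast this
    have h5 : (8 * i + 16) * β ≤ 16 * ((2 * i + 1) * β) := by nlinarith
    omega
  refine ⟨?_, ?_, ?_⟩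
  · have : (1 : ℝ) ≤ (κ : ℝ) := by nlinarith
    exact_mod_cast this
  · intro m hm hm2
    have h6 := h₁ (32 * l) m hl1 hm (hm2.trans (Nat.pow_le_pow_right (by norm_num) hβ'))
    have h7 : (m.primeFactors.card : ℝ) ≤ (κ : ℝ) := by
      calc (m.primeFactors.card : ℝ) ≤ τ / 32 * ((32 * l : ℕ) : ℝ) := h6
        _ = τ * l := by push_cast; ring
        _ ≤ κ := hκ
    exact_mod_cast h7
  · have h8 : ((κ : ℝ) + 1) ^ 2 ≤ 4 * 2 ^ κ := by exact_mod_cast h14_sq_le κ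
    have h9 : (33 : ℝ) * l ≤ 2 ^ κ := by
      have hκ0 : (0 : ℝ) ≤ τ * l := by positivity
      have h10 : (τ * l) ^ 2 ≤ ((κ : ℝ) + 1) ^ 2 := by
        apply pow_le_pow_left₀ hκ0
        linarith
      have h11 : (132 : ℝ) * l ≤ (τ * l) ^ 2 := by nlinarith
      linarith
    have h12 : (((8 * i + 16) * β + 1 : ℕ) : ℝ) ≤ ((2 ^ κ : ℕ) : ℝ) := by
      calc (((8 * i + 16) * β + 1 : ℕ) : ℝ) ≤ ((32 * l + 1 : ℕ) : ℝ) := by
            exact_mod_cast Nat.add_le_add_right hβ' 1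
        _ ≤ 33 * l := by push_cast; linarith
        _ ≤ 2 ^ κ := h9
        _ = ((2 ^ κ : ℕ) : ℝ) := by push_cast; ring
    exact_mod_cast h12

end Pool.Agent.Helper19.P3
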