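import Mathlib
import Pool.Agent.Helper14.P3.MainOf
import Pool.Agent.Helper77.P3.Blk4

/-!
# Project PS4: the theorem for sets of Lehmer numbers with a prime factor `≥ x ^ ε`
-/

namespace Pool.Agent.Helper19.P3

open Finset Pool.Agent.Helper6.Lehmer Pool.Agent.Helper6.LehmerCount Pool.Agent.Helper6.PW
open Pool.Agent.Helper58.PS

theorem ps4_main (ε : ℝ) (hε : 0 < ε) : ∃ δ : ℝ, 0 < δ ∧ ∃ x₀ : ℕ, ∀ x : ℕ,
    x₀ ≤ x → ∀ S : Finset ℕ, (∀ n ∈ S, IsLehmer n ∧ n ≤ x ∧ ∃ P, IsP n P ∧ (x : ℝ) ^ ε ≤ P) →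
    (#S : ℝ) ≤ (x : ℝ) ^ ((1 : ℝ) / 2 - δ) :=
  ps4_main_of (fun U hU => blk4 U hU) ε hε

end Pool.Agent.Helper19.P3
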